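import Pool.Agent.Helper38.IA.St

/-!
# IA module L3 of helper38 (MP_953b28_co): oscillation bound for the Laplace equation
-/

set_option autoImplicit false

namespace Pool.Agent.Helper22.IA38

open Finset Pool.Agent.Helper93.IA Pool.Agent.Helper38.IA

private lemma lap_neg {V : Type} [Fintype V] (W : V → V → ℝ) (p : V → ℝ) (v : V) :
    Lap W (fun x => -p x) v = -Lap W p v := by
  unfold Lap
  rw [← Finset.sum_neg_distrib]
  apply Finset.sum_congr rfl
  intro y _
  ring

private lemma key {V : Type} [Fintype V] [DecidableEq V] (I : Finset V) (W : V → V → ℝ)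
    (p : V → ℝ) (m n βo βi M : ℝ) (hW : ∀ v y, 0 ≤ W v y ∧ W v y ≤ 1)
    (hII : ∀ v ∈ I, ∀ y ∈ I, W v y = 0) (hOO : ∀ v, v ∉ I → ∀ y, y ∉ I → W v y = 0)
    (hm : 0 < m) (hn : 0 < n) (hβo : 0 ≤ βo) (hβi : 0 ≤ βi)
    (hdo : ∀ v, v ∉ I → 0 < ∑ y, W v y ∧ ∑ y, W v y ≤ 2 * m)
    (hdi : ∀ v ∈ I, 0 < ∑ y, W v y ∧ ∑ y, W v y ≤ 2 * n)
    (hcd : ∀ u ∈ I, ∀ u' ∈ I, 55 / 100 * n ≤ ∑ v, W u v * W v u')
    (hLo : ∀ v, v ∉ I → |Lap W p v| ≤ βo * ∑ y, W v y)
    (hLi : ∀ v ∈ I, |Lap W p v| ≤ βi * ∑ y, W v y)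
    (hM : ∀ u ∈ I, p u ≤ M) (u1 : V) (hu1 : u1 ∈ I) (hu1M : p u1 = M) :
    55 / 100 * ∑ u ∈ I, (M - p u) ≤ 4 * m * (βo + βi) ∧ ∀ v, v ∉ I → p v ≤ M + βo := by
  obtain ⟨S, hS⟩ : ∃ S : V → ℝ, ∀ v, S v = ∑ u ∈ I, W v u * (M - p u) := ⟨_, fun _ => rfl⟩
  have hS0 : ∀ v, 0 ≤ S v := by
    intro v
    rw [hS]
    exact Finset.sum_nonneg fun u hu => mul_nonneg (hW v u).1 (by linarith [hM u hu])
  have hout : ∀ v, v ∉ I → S v / (2 * m) ≤ M - p v + βo := by
    intro v hv
    obtain ⟨hd1, hd2⟩ := hdo v hv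
    have e1 : ∑ y, W v y * (M - p y) = S v := by
      rw [hS]
      symm
      apply Finset.sum_subset (Finset.subset_univ I)
      intro y _ hy
      rw [hOO v hv y hy, zero_mul]
    have e2 : Lap W p v = ∑ y, W v y * (M - p y) - (∑ y, W v y) * (M - p v) := by
      unfold Lap
      rw [Finset.sum_mul, ← Finset.sum_sub_distrib]
      apply Finset.sum_congr rfl
      intro y _
      ring
    have h3 := (abs_le.mp (hLo v hv)).2
    rw [e2, e1] at h3
    have h4 : S v ≤ (∑ y, W v y) * (M - p v + βo) := by linarith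
    have h5 : 0 ≤ M - p v + βo := by
      by_contra hneg
      push Not at hneg
      have := mul_neg_of_pos_of_neg hd1 hneg
      linarith [hS0 v]
    rw [div_le_iff₀ (by linarith)]
    calc S v ≤ (∑ y, W v y) * (M - p v + βo) := h4
      _ ≤ (2 * m) * (M - p v + βo) := mul_le_mul_of_nonneg_right hd2 h5
      _ = (M - p v + βo) * (2 * m) := by ring
  constructor
  · -- at `u1`
    have hterm : ∀ v, W u1 v * (S v / (2 * m)) ≤ W u1 v * (M - p v) + βo * W u1 v := by
      intro v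
      by_cases hv : v ∈ I
      · rw [hII u1 hu1 v hv]; simp
      · have := mul_le_mul_of_nonneg_left (hout v hv) (hW u1 v).1
        linarith
    have h1 : ∑ v, W u1 v * (S v / (2 * m)) ≤ ∑ v, (W u1 v * (M - p v) + βo * W u1 v) :=
      Finset.sum_le_sum fun v _ => hterm v
    have h2 : ∑ v, (W u1 v * (M - p v) + βo * W u1 v) = Lap W p u1 + βo * ∑ v, W u1 v := by
      rw [Finset.sum_add_distrib, ← Finset.mul_sum]
      unfold Lap
      rw [hu1M]
    have h3 := (abs_le.mp (hLi u1 hu1)).2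
    obtain ⟨hd1, hd2⟩ := hdi u1 hu1
    have h4 : ∑ v, W u1 v * (S v / (2 * m)) ≤ (βo + βi) * (2 * n) := by
      calc ∑ v, W u1 v * (S v / (2 * m)) ≤ Lap W p u1 + βo * ∑ v, W u1 v := by rw [← h2]; exact h1
        _ ≤ (βo + βi) * ∑ v, W u1 v := by linarith
        _ ≤ (βo + βi) * (2 * n) := mul_le_mul_of_nonneg_left hd2 (by linarith)
    have h5 : ∑ v, W u1 v * (S v / (2 * m)) = (∑ v, W u1 v * S v) / (2 * m) := by
      rw [Finset.sum_div]
      apply Finset.sum_congr rfl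
      intro v _
      ring
    have h6 : ∑ v, W u1 v * S v = ∑ u ∈ I, (M - p u) * ∑ v, W u1 v * W v u := by
      have e1 : ∀ v, W u1 v * S v = ∑ u ∈ I, (M - p u) * (W u1 v * W v u) := by
        intro v
        rw [hS, Finset.mul_sum]
        apply Finset.sum_congr rfl
        intro u _
        ring
      rw [Finset.sum_congr rfl fun v _ => e1 v, Finset.sum_comm]
      apply Finset.sum_congr rfl
      intro u _
      rw [Finset.mul_sum]
    have h7 : 55 / 100 * n * ∑ u ∈ I, (M - p u) ≤ ∑ v, W u1 v * S v := by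
      rw [h6, Finset.mul_sum]
      apply Finset.sum_le_sum
      intro u hu
      have := mul_le_mul_of_nonneg_left (hcd u1 hu1 u hu) (sub_nonneg.mpr (hM u hu))
      linarith
    rw [h5, div_le_iff₀ (by linarith)] at h4
    have h8 : n * (55 / 100 * ∑ u ∈ I, (M - p u)) ≤ n * (4 * m * (βo + βi)) := by linarith
    exact le_of_mul_le_mul_left h8 hn
  · intro v hv
    have h1 := hout v hv
    have h2 : 0 ≤ S v / (2 * m) := div_nonneg (hS0 v) (by linarith)
    linarith

/-- IA module L3 of helper38 -/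
theorem hL3 : StL3 := by
  intro V _ _ I W p m n βo βi hW _ hII hOO hm hn hβo hβi hdo hdi hcd hcard hLo hLi
  have hIne : I.Nonempty := by
    rw [← Finset.card_pos]
    have : (0 : ℝ) < I.card := by rw [hcard]; linarith
    exact_mod_cast this
  obtain ⟨u1, hu1, hmax⟩ := Finset.exists_max_image I p hIne
  obtain ⟨u2, hu2, hmin⟩ := Finset.exists_min_image I p hIne
  obtain ⟨k1, k2⟩ := key I W p m n βo βi (p u1) hW hII hOO hm hn hβo hβi hdo hdi hcd hLo hLi hmax
    u1 hu1 rfl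
  obtain ⟨k3, k4⟩ := key I W (fun x => -p x) m n βo βi (-p u2) hW hII hOO hm hn hβo hβi hdo hdi hcd
    (fun v hv => by rw [lap_neg, abs_neg]; exact hLo v hv)
    (fun v hv => by rw [lap_neg, abs_neg]; exact hLi v hv)
    (fun u hu => by simpa using hmin u hu) u2 hu2 rfl
  have hsum : ∑ u ∈ I, (p u1 - p u) + ∑ u ∈ I, (-p u2 - -p u) = 3 * m * (p u1 - p u2) := by
    rw [← Finset.sum_add_distrib]
    have e : ∀ u ∈ I, (p u1 - p u) + (-p u2 - -p u) = p u1 - p u2 := by
      intro u _; ring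
    rw [Finset.sum_congr rfl e, Finset.sum_const, nsmul_eq_mul, hcard]
  have hD : p u1 - p u2 ≤ 5 * (βo + βi) := by
    have h1 : 55 / 100 * (3 * m * (p u1 - p u2)) ≤ 8 * m * (βo + βi) := by
      rw [← hsum, mul_add]; linarith
    have h2 : m * (165 / 100 * (p u1 - p u2)) ≤ m * (8 * (βo + βi)) := by linarith
    have h3 := le_of_mul_le_mul_left h2 hm
    have h4 : 0 ≤ βo + βi := by linarith
    linarith
  have hup : ∀ x, p x ≤ p u1 + βo := by
    intro x
    by_cases hx : x ∈ I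
    · linarith [hmax x hx]
    · exact k2 x hx
  have hlo : ∀ x, p u2 - βo ≤ p x := by
    intro x
    by_cases hx : x ∈ I
    · linarith [hmin x hx]
    · have := k4 x hx
      linarith
  intro x y
  rw [abs_le]
  constructor
  · linarith [hup y, hlo x]
  · linarith [hup x, hlo y]

end Pool.Agent.Helper22.IA38
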